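import Pool.Agent.H.MP_f1effe_lc.B

set_option autoImplicit false

namespace Pool.Agent.Results.MP_f1effe_lc.Yes

open Filter Pool.Agent.H.MP_65fbb9_lc Pool.Agent.H.MP_f1effe_lc Pool.Agent.Lib.helper21
open Pool.Agent.Lib.helper21.PR

/-- coarse computability bound -/
noncomputable def gam (Y : ℕ → Bool) : ℝ := ⨆ C : {C : ℕ → Bool // Computable C}, ld Y C.1

noncomputable def Gam (X : ℕ → Bool) : ℝ :=
  ⨅ Y : {Y : ℕ → Bool // TuringReducible (Fn.orc Y) (Fn.orc X)}, gam Y.1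

theorem result (X : ℕ → Bool) (h : Gam X = 1 / 2) (Y : ℕ → Bool)
    (hY : TuringReducible (Fn.orc Y) (Fn.orc X)) : ∃ A, Computable A ∧ ld Y A = 1 / 2 := by
  refine (half (.of_orc hY) fun k => ?_).imp fun A k => ⟨comp_bool k.1, k.2⟩
  obtain ⟨Z, h1, h2⟩ := zero (boost 2 k)
  have h3 : Gam X ≤ gam Z := ciInf_le (f := fun Y : {Y : ℕ → Bool //
    TuringReducible (Fn.orc Y) (Fn.orc X)} => gam Y.1) ⟨0, by
      rintro _ ⟨W, rfl⟩
      exact Real.iSup_nonneg fun C => le_ld (.of_forall fun _ => by positivity)⟩ ⟨Z, h1.orc⟩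
  have h4 : gam Z ≤ 0 := Real.iSup_nonpos fun C => (h2 _ (Computable.ci C.2)).le
  linarith

end Pool.Agent.Results.MP_f1effe_lc.Yes
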